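import Pool.Agent.W206.MO.Main

/-!
# The strong monodromy conjecture reduces to cubics `x_i + ∑ t_j q_j(x)`

The motivic strong monodromy conjecture (for all complex polynomials) is equivalent to its case for
the polynomials `x_i + ∑_j t_j q_j(x)` of degree at most three, with `q_j` of degree at most two.

The proof attaches to every `f` and all large `m` such a cubic `g`, obtained from `f` by `m` moves
`F ↦ F + (y - a)(t + e)` with new variables `y`, `t`. With `P(T) = ∑_N 𝕃 ^ (-nN) [X_N(f)] T ^ N`,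
where `X_N(f)` is the scheme of the jets mod `t ^ N` on which `f` vanishes, one has
`(1 - T) P_f(T) = 1 - T Z_f(T)` and
`(1 - 𝕃 ^ (-1) T) P_g(T) = (1 - 𝕃 ^ (-m-1) T) P_f(𝕃 ^ (-m) T)`. If `b_f(s) = (s + 1) b'(s)`, then
`b_g(s)` divides `(s + 1) b'(s + m)`.
-/

set_option autoImplicit false

namespace Pool.Agent.Results.MP_b07157_ag.CubicReduction

open MvPolynomial
open Pool.Agent.W428.MOT Pool.Agent.W375.MG Pool.Agent.W206.MO Pool.Agent.W206.CU
open Pool.Agent.H628R4.TP (IsBFunction IsBernsteinSatoOf)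

/-- The strong monodromy conjecture for `f`: every pole of the motivic zeta function of `f` is a
zero of the Bernstein-Sato polynomial of `f`. -/
def SMC {n : ℕ} (f : MvPolynomial (Fin n) ℂ) : Prop :=
  ∀ s₀ : ℚ, IsPole (zetaOrd f Set.univ) s₀ →
    ∀ b : Polynomial ℂ, IsBernsteinSatoOf f b → b.eval (s₀ : ℂ) = 0

/-- The polynomial `x_i + ∑_j t_j q_j(x)` in the `n + k` variables `x_1, …, x_n, t_1, …, t_k`. -/
noncomputable def cubic {n k : ℕ} (i : Fin n) (q : Fin k → MvPolynomial (Fin n) ℂ) :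
    MvPolynomial (Fin (n + k)) ℂ :=
  X (Fin.castAdd k i) + ∑ j, X (Fin.natAdd n j) * rename (Fin.castAdd k) (q j)

theorem rename_linQuad {n k : ℕ} (i : Fin n) (q : Fin k → MvPolynomial (Fin n) ℂ) :
    renameEquiv ℂ finSumFinEquiv (KX.linQuad i q) = cubic i q := by
  rw [renameEquiv_apply, KX.linQuad, cubic, map_add, rename_X, map_sum]
  congr 1
  refine Finset.sum_congr rfl fun j _ => ?_
  rw [map_mul, rename_X, rename_rename]
  rfl

/-- The reduction for a single polynomial. -/
theorem smc_of_cubics {n : ℕ} (f : MvPolynomial (Fin n) ℂ) (hf : ∀ c : ℂ, f ≠ C c)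
    (h : ∀ (n k : ℕ) (i : Fin n) (q : Fin k → MvPolynomial (Fin n) ℂ),
      (∀ j, (q j).totalDegree ≤ 2) → SMC (cubic i q)) : SMC f := by
  intro s hs b hb
  have hdeg : f.totalDegree ≠ 0 := fun h0 => hf _ (totalDegree_eq_zero_iff_eq_C.1 h0)
  obtain ⟨h1, h2⟩ := bs1_reduced hb.2.1 hdeg
  by_cases hs1 : s = -1
  · rw [hs1]
    push_cast
    exact h1
  obtain ⟨B, hB⟩ : (Polynomial.X + 1 : Polynomial ℂ) ∣ b := by
    have h3 : (Polynomial.X + 1 : Polynomial ℂ) = Polynomial.X - Polynomial.C (-1) := by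
      rw [map_neg, map_one, sub_neg_eq_add]
    rw [h3]
    exact Polynomial.dvd_iff_isRoot.2 h1
  have hB0 : B ≠ 0 := by
    rintro rfl
    rw [mul_zero] at hB
    exact hb.1.ne_zero hB
  obtain ⟨M, hL, hM⟩ := exists_meas ℂ
  obtain ⟨N, hN⟩ := exists_nat_gt (max s (s + 1))
  obtain ⟨n', k, m, i, q, hNm, hq, hfol⟩ := KX.main (follow_chain M hL f) f (follow_start M f) N
  have hmN : (N : ℚ) ≤ m := by exact_mod_cast hNm
  have hfol' := (follow_chain M hL f).iso _ _ (renameEquiv ℂ finSumFinEquiv) _ _ hfol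
  rw [rename_linQuad] at hfol'
  have hpole := pole_transfer M hL hM hfol' hs1
    (by have := lt_of_le_of_lt (le_max_left _ _) hN; linarith) hs
  have h4 := isBFunction_of_bs1 (hfol'.1 B (h2 B hB))
  have h5 : (Polynomial.X + 1) * B.comp (Polynomial.X + Polynomial.C (m : ℂ)) ≠ 0 := by
    refine mul_ne_zero ?_ ?_
    · exact (Polynomial.monic_X_add_C (1 : ℂ)).ne_zero
    · exact comp_ne_zero hB0 m
  obtain ⟨b', hb'⟩ := exists_isBernsteinSatoOf h4 h5
  obtain ⟨c, hc⟩ := isBernsteinSatoOf_dvd hb' h4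
  have h6 := h n' k i q hq (s - m) hpole b' hb'
  have h7 := congrArg (Polynomial.eval (((s - m : ℚ)) : ℂ)) hc
  rw [Polynomial.eval_mul, Polynomial.eval_mul, h6, zero_mul, Polynomial.eval_comp,
    Polynomial.eval_add, Polynomial.eval_add, Polynomial.eval_X, Polynomial.eval_one,
    Polynomial.eval_C] at h7
  push_cast at h7
  rw [sub_add_cancel] at h7
  rcases mul_eq_zero.1 h7 with h8 | h8
  · exfalso
    have h9 : (((s - m + 1 : ℚ)) : ℂ) = 0 := by
      push_cast
      exact h8
    have h10 : s - m + 1 = 0 := by exact_mod_cast h9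
    have := lt_of_le_of_lt (le_max_right _ _) hN
    linarith
  · rw [hB, Polynomial.eval_mul, h8, mul_zero]

theorem result : List.TFAE [
    -- the conjecture for all nonconstant polynomials
    ∀ (n : ℕ) (f : MvPolynomial (Fin n) ℂ), (∀ c : ℂ, f ≠ C c) → SMC f,
    -- the conjecture for all nonconstant polynomials with `f(0) = 0`
    ∀ (n : ℕ) (f : MvPolynomial (Fin n) ℂ), (∀ c : ℂ, f ≠ C c) → eval 0 f = 0 → SMC f,
    -- the conjecture for the polynomials `x_i + ∑_j t_j q_j(x)` with `q_j` quadratic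
    ∀ (n k : ℕ) (i : Fin n) (q : Fin k → MvPolynomial (Fin n) ℂ),
      (∀ j, (q j).totalDegree ≤ 2) → SMC (cubic i q)] := by
  tfae_have 1 → 2 := fun h n f hf _ => h n f hf
  tfae_have 2 → 3 := by
    intro h n k i q _
    have h0 : eval 0 (cubic i q) = 0 := by simp [cubic]
    refine h _ _ (fun c hc => ?_) h0
    have h1 : eval (fun j => if j = Fin.castAdd k i then (1 : ℂ) else 0) (cubic i q) = 1 := by
      rw [cubic, map_add, map_sum]
      have h2 : ∀ j : Fin k, Fin.natAdd n j ≠ Fin.castAdd k i := by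
        intro j hj
        have := congrArg Fin.val hj
        simp at this
        omega
      simp [h2]
    rw [hc, eval_C] at h0 h1
    rw [h0] at h1
    exact zero_ne_one h1
  tfae_have 3 → 1 := fun h n f hf => smc_of_cubics f hf h
  tfae_finish

end Pool.Agent.Results.MP_b07157_ag.CubicReduction
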