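import Mathlib
import Pool.Agent.W425.GN.MotL

/-!
# The strong monodromy conjecture for the motivic zeta function, generic coefficients

Let `f = ∑_j c_j x ^ (v j) + h ∈ ℂ[x_1, …, x_n]`, where `h` is an ARBITRARY polynomial over a subfield
`F` of `ℂ`, whose exponents are in the Newton polyhedron `conv {v j} + ℝ_{≥ 0} ^ n`, and the
coefficients `c_j` are generic: `g(c) ≠ 0` for a certain nonzero polynomial `g` with coefficients in
`F`. So only the coefficients at the vertices of the Newton polyhedron (and as many others as one wants)
have to be generic. The number of variables and the singularities are arbitrary.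

If no candidate pole `- |a| / N_a ≠ -1` comes only from `B1`-facets of the Newton polyhedron, then
every pole of the motivic zeta function of `f`, and of the zeta functions counting only the arcs with
origin in a constructible set `W`, is a root of the Bernstein-Sato polynomial `b_f`.

Method. If the `c_j` are algebraically independent over `F`, then all the candidate poles are roots of
`b_f`: the functional equation of `b_f` gives an algebraic relation, and functionals (one for every
facet) are applied to it. Now `s - α` divides `b_f` if and only if there is no identity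
`f ^ s = P(s) f ^ (s + 1) + (s - α) Q(s) f ^ s`. Gröbner bases in the Weyl algebra over
`F(c_1, …, c_r)`, spread out over `F[c_1, …, c_r, 1 / g]`, show that such an identity for one member of
the family with `g(c) ≠ 0` gives one for the generic member. The zeta function is computed from the
nondegeneracy of `f`.
-/

set_option autoImplicit false

namespace Pool.Agent.Results.MP_b07157_ag.GenericCoefficients

open MvPolynomial Pool.Agent.W428.MOT Pool.Agent.W375.MG Pool.Agent.W425.MM Pool.Agent.W425.ND

/-- **The strong monodromy conjecture (Q1) for the motivic zeta functions of the polynomials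
`f = ∑_j c_j x ^ (v j) + h` with generic coefficients `c_j` and without candidate poles which come only
from `B1`-facets.**

`spa v c` is the polynomial `∑_j c_j x ^ (v j)`. `NP v w` says that `w` is in the Newton polyhedron
`conv {v j} + ℝ_{≥ 0} ^ n`.

`NoB1s v False` says that for every ray `a` of the normal fan of the Newton polyhedron (`IsRay v a`)
with `N_a := gord v a = min_j ⟨a, v j⟩ > 0` either `|a| = N_a`, or `|a| / N_a = |a'| / N_{a'}`
for some `a' ∈ ℕ ^ n` with `N_{a'} > 0` and `NonB v False a'`: there is a set `J` of `#{i | a' i ≠ 0}`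
elements with `⟨a', v j⟩ = N_{a'}` for `j ∈ J` such that the vectors `(v j i)_{a' i ≠ 0}`, `j ∈ J`, are
linearly independent and such that no variable `x_i` with `a' i ≠ 0` occurs in exactly one of the
monomials `x ^ (v j)`, `j ∈ J`, and there with exponent `1`.

`zetaOrd f W` is the motivic zeta function `𝕃 ^ (- n) ∑_l [{φ : φ(0) ∈ W, ord f(φ) = l}] (𝕃 ^ (- n) T) ^ l`
of the arcs with origin in `W`; `W = Set.univ` gives the global motivic zeta function of `f`.
`IsBFunction f b` says that `b(s) f ^ s = P(s) f ^ (s + 1)` for a differential operator `P(s)` in the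
Weyl algebra, polynomial in `s`; the Bernstein-Sato polynomial `b_f` is one of these polynomials
`b`. -/
theorem result {n r : ℕ} (hr : 1 ≤ r) (F : Subfield ℂ) (v : Fin r → Fin n → ℕ)
    (hv : Function.Injective v) (hv0 : ∀ j, v j ≠ 0)
    (h : MvPolynomial (Fin n) F) (hh : ∀ w ∈ h.support, Pool.Agent.W425.SV.NP v w)
    (hB : NoB1s v False) :
    ∃ g : MvPolynomial (Fin r) F, g ≠ 0 ∧ ∀ c : Fin r → ℂ, aeval c g ≠ 0 →
      ∀ W : Set (Pt ℂ (Fin n)), Constr W →
      ∀ s₀ : ℚ, IsPole (zetaOrd (spa v c + MvPolynomial.map (algebraMap F ℂ) h) W) s₀ →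
      ∀ b : Polynomial ℂ, Pool.Agent.H628R4.TP.IsBFunction
        (spa v c + MvPolynomial.map (algebraMap F ℂ) h) b → b.eval (s₀ : ℂ) = 0 := by
  obtain ⟨g, hg, hgz⟩ := Pool.Agent.W425.GN.gen_motF (F := F) (show 0 < r by omega) v hv hv0 h hh hB
  refine ⟨g, hg, fun c hc W hW s₀ hs b hb => ?_⟩
  obtain ⟨S, hS, hz, -⟩ := hgz ℂ c hc
  obtain ⟨p, hp, rfl⟩ := Pool.Agent.W425.GN.pole_in _ W S (fun p hp => (hS p hp).2.1)
    (hz ℂ W {a | a ≠ 0} hW good_units) s₀ hs
  have h1 := (hS p hp).2.2 b hb
  push_cast
  exact h1

end Pool.Agent.Results.MP_b07157_ag.GenericCoefficients
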