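import Pool.Agent.W574.MO.Cone

set_option autoImplicit false

/-! # The strong motivic monodromy conjecture for the hypersurfaces `∑ y_j f_j(x₁, x₂) = 0`

Here the `f_j` are arbitrary polynomials in the two variables `x₁, x₂`, and the `y_j` are further
variables: `F = univ f = ∑ y_j f_j(x₁, x₂)`. The motivic zeta function of `F` is
`Z_I (1 - L⁻¹) / (1 - L⁻¹ T)`, where `Z_I` is the motivic zeta function of the ideal `I = (f_j)`,
computed by blowing up points of the plane; see `FormMot` (in `Pool.Agent.W574.MO.FormDefs`),
`PlaneMot` and `MotLocal` (in `Pool.Agent.W574.MO.Defs`).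

The proof:

* `functionalEq_of_univ`: a functional equation of `F` gives a functional equation of the ideal
  `(f_j)` with the same `b` (one direction of a theorem of Mustata, 2019);
* `local_mainM`: if `b(s₀) ≠ 0`, then the contribution of a point to `Z_I` lies in the ring of the
  series whose denominators do not vanish at `s₀`;
* `descent`: over the unique factorization domain `ℤ[L, L⁻¹]`, all denominators which do not
  belong to roots of `b` can be removed at the same time; every contribution of a point comes from
  this ring;
* `curve_root` and `minus_one`: `b(-1/m) = 0` for the multiplicities `m` of the curves in the zero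
  locus, and `b(-1) = 0`. -/

namespace Pool.Agent.Results.MP_b07157_ag.PlaneForms

open MvPolynomial Pool.Agent.W574.MO Pool.Agent.W574.HS Pool.Agent.H628R4.TP

/-- **The strong motivic monodromy conjecture holds for the polynomials
`F = ∑ y_j f_j(x₁, x₂)`.** Let `f_j` be polynomials in two variables, not all zero, let `b` be a
polynomial which satisfies a functional equation `b(s) F ^ s = P(s) F ^ (s + 1)` (in particular the
Bernstein-Sato polynomial of `F`), and let `Z ∈ M⟦T⟧` be the motivic zeta function of `F`. Then
`Z` lies in the ring `M[T][(1 - L⁻ⁿ Tᵃ)⁻¹]`, where the pairs `a, n ≥ 1` are such that `-n/a` is a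
root of `b`. -/
theorem result {M : Type} [CommRing M] (L : Mˣ) {ι : Type} [Fintype ι]
    (f : ι → MvPolynomial (Fin 2) ℂ) (hf : ∃ j, f j ≠ 0) (b : Polynomial ℂ)
    (hb : IsBFunction (univ f) b) (Z : PowerSeries M) (hZ : FormMot L f Z) :
    Z ∈ DenRing L (RootPair b) := by
  classical
  obtain ⟨Z', hZ', rfl⟩ := hZ
  exact form_mot L f hf b hb Z' hZ' _

end Pool.Agent.Results.MP_b07157_ag.PlaneForms
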