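import Pool.Agent.W574.MO.Cone

set_option autoImplicit false

/-! # The local strong motivic monodromy conjecture for the germs `∑ y_j f_j(x₁, x₂) = 0`

Here the `f_j` are arbitrary polynomials in the two variables `x₁, x₂`, and the `y_j` are further
variables: `F = univ f = ∑ y_j f_j(x₁, x₂)`, a germ at the origin. The local motivic zeta function
of `F` is computed by blowing up points of the plane; see `LocalFormMot` (in
`Pool.Agent.W574.MO.FormDefs`) and `MotLocal` (in `Pool.Agent.W574.MO.Defs`).

The proof:

* `algebraic_of_local`: a functional equation of `F` with formal power series coefficients gives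
  a functional equation with coefficients in the algebraic local ring, with the same `b`;
* `locEq_of_univ`: this gives a functional equation of the ideal `(f_j)` near the origin of the
  plane, with the same `b`;
* `local_mainM`: if `b(s₀) ≠ 0`, then the contribution of the origin to `Z_I` lies in the ring of
  the series whose denominators do not vanish at `s₀`;
* `descent`: over the unique factorization domain `ℤ[L, L⁻¹]`, all denominators which do not
  belong to roots of `b` can be removed at the same time;
* `minus_one`: `b(-1) = 0`. -/

namespace Pool.Agent.Results.MP_b07157_ag.PlaneFormsLocal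

open MvPolynomial Pool.Agent.W574.MO Pool.Agent.W574.HS Pool.Agent.H628R4.TP

/-- **The local strong motivic monodromy conjecture holds for the germs
`F = ∑ y_j f_j(x₁, x₂)` at the origin.** Let `f_j` be polynomials in two variables, not all zero,
let `b` be a polynomial which satisfies a functional equation `b(s) F ^ s = P(s) F ^ (s + 1)` with
a differential operator `P(s)` with formal power series coefficients (in particular the local
Bernstein-Sato polynomial of `F` at the origin), and let `Z ∈ M⟦T⟧` be the local motivic zeta
function of `F` at the origin. Then `Z` lies in the ring `M[T][(1 - L⁻ⁿ Tᵃ)⁻¹]`, where the pairs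
`a, n ≥ 1` are such that `-n/a` is a root of `b`. -/
theorem result {M : Type} [CommRing M] (L : Mˣ) {ι : Type} [Fintype ι]
    (f : ι → MvPolynomial (Fin 2) ℂ) (hf : ∃ j, f j ≠ 0) (b : Polynomial ℂ)
    (hb : IsLocalBFunction (univ f) b) (Z : PowerSeries M) (hZ : LocalFormMot L f Z) :
    Z ∈ DenRing L (RootPair b) := by
  classical
  obtain ⟨Z', hZ', rfl⟩ := hZ
  exact local_form_mot L f hf b hb Z' hZ' _

end Pool.Agent.Results.MP_b07157_ag.PlaneFormsLocal
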