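import Pool.Agent.W375.MG.Out

/-!
# The strong monodromy conjecture for the motivic zeta function of sparse polynomials

Let `f = x ^ A (∑_j c_j x ^ (m_j)) ^ e ∈ ℂ[x_1, ..., x_n]` with `r ≥ 2` terms, `c_j ≠ 0`, affinely
independent exponents `m_j`, `e ≥ 1`, such that for every variable `x_i` either `x_i ∣ x ^ A` or
no `m_j` has `x_i`-exponent `1`. Then every pole of the motivic zeta function of `f`, and of the
zeta functions counting only the arcs with origin in a constructible set `W`, is a root of the
Bernstein-Sato polynomial of `f`.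
-/

set_option autoImplicit false

namespace Pool.Agent.Results.MP_b07157_ag.SparseNaiveMotivic

open MvPolynomial Pool.Agent.W428.MOT Pool.Agent.W375.MG

/-- **The strong monodromy conjecture for the motivic zeta function of the polynomials
`f = x ^ A (∑_j c_j x ^ (m_j)) ^ e` with affinely independent exponents `m_j` and no exponent `1`
in the variables which do not divide `x ^ A`.**

`W = Set.univ` gives the global motivic zeta function of `f`. `IsBFunction f b` says that
`b(s) f ^ s = P(s) f ^ (s + 1)` for a differential operator `P(s)`; the Bernstein-Sato polynomial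
`b_f` is one of these polynomials `b`. -/
theorem result {n r : ℕ} (A : Fin n → ℕ) (m : Fin r → Fin n → ℕ) (c : Fin r → ℂ) (e : ℕ)
    (hm : AffineIndependent ℚ (fun (j : Fin r) (i : Fin n) => (m j i : ℚ)))
    (hc : ∀ j, c j ≠ 0) (hr : 2 ≤ r) (he : 0 < e) (h1 : ∀ i, A i ≠ 0 ∨ ∀ j, m j i ≠ 1)
    (W : Set (Pt ℂ (Fin n))) (hW : Constr W) (s₀ : ℚ) (hs : IsPole (zetaOrd (sp A m c e) W) s₀)
    (b : Polynomial ℂ) (hb : Pool.Agent.H628R4.TP.IsBFunction (sp A m c e) b) :
    b.eval (s₀ : ℂ) = 0 :=
  pole_root A m c e hm hc hr he h1 W hW s₀ hs b hb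

end Pool.Agent.Results.MP_b07157_ag.SparseNaiveMotivic
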